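import Pool.Agent.TH206.Fro.Defs

set_option autoImplicit false

namespace Pool.Agent.TH863.NM

open Finset Pool.Agent.TH206.Fro
open scoped Pointwise

/-- The monomials of degree `e` in the variables after those of `a`. -/
noncomputable def HS (n e : ℕ) (a : Fin n →₀ ℕ) : Finset (Fin n →₀ ℕ) :=
  (Mon n e).filter (fun w => ∀ i j, a i ≠ 0 → w j ≠ 0 → i ≤ j)

/-- every monomial of degree k+e is a product of its k first letters and its e last ones -/
lemma exists_split (n k e : ℕ) (y : Fin n →₀ ℕ) (hy : y ∈ Mon n (k + e)) :
    ∃ a ∈ Mon n k, ∃ w ∈ HS n e a, a + w = y := by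
  induction e generalizing y with
  | zero =>
    refine ⟨y, hy, 0, ?_, add_zero y⟩
    simp [HS, mem_Mon]
  | succ e ih =>
    have hy1 := mem_Mon.1 hy
    have hne : y.support.Nonempty := by
      rw [Finsupp.support_nonempty_iff]
      rintro rfl
      simp at hy1
    obtain ⟨m, hm1, hm2⟩ : ∃ m ∈ y.support, ∀ i ∈ y.support, i ≤ m :=
      ⟨y.support.max' hne, y.support.max'_mem hne, fun i hi => y.support.le_max' i hi⟩
    have hm0 : 1 ≤ y m := Nat.one_le_iff_ne_zero.2 (Finsupp.mem_support_iff.1 hm1)
    have hle : Finsupp.single m 1 ≤ y := by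
      rw [Finsupp.single_le_iff]
      exact hm0
    have hy2 : y - Finsupp.single m 1 + Finsupp.single m 1 = y := tsub_add_cancel_of_le hle
    have hy3 : y - Finsupp.single m 1 ∈ Mon n (k + e) := by
      rw [mem_Mon'] at hy ⊢
      have h := congrArg Finsupp.degree hy2
      rw [map_add, Finsupp.degree_single, hy] at h
      omega
    obtain ⟨a, ha, w, hw, haw⟩ := ih _ hy3
    refine ⟨a, ha, w + Finsupp.single m 1, ?_, ?_⟩
    · simp only [HS, mem_filter] at hw ⊢
      obtain ⟨hw1, hw2⟩ := hw
      refine ⟨?_, fun i j hi hj => ?_⟩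
      · rw [mem_Mon'] at hw1 ⊢
        rw [map_add, Finsupp.degree_single, hw1]
      · by_cases hjm : j = m
        · subst hjm
          apply hm2
          rw [Finsupp.mem_support_iff]
          intro h0
          have h1 := DFunLike.congr_fun haw i
          rw [Finsupp.add_apply, Finsupp.tsub_apply, h0] at h1
          omega
        · apply hw2 i j hi
          intro h0
          apply hj
          simp only [Finsupp.add_apply, h0, Finsupp.single_apply, zero_add, ite_eq_right_iff]
          exact fun h => absurd (Eq.symm h) hjm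
    · rw [← add_assoc, haw, hy2]

end Pool.Agent.TH863.NM
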